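import Pool.Agent.Lib.MP_305fdd_al.Fr.CI.LemF

/-!
# MP_305fdd_al, Theorem R, Case I: passage to an integral system

`Fam.int`: the connected component `C` of an arc is a finite set of arcs; for every `L` which is
positive on a finite set `F₀` and even on a finite set `E₀`, the integral arcs `(Lz (p c), Lz (q c))`,
`c ∈ C`, are pairwise disjoint, and every step of the integral system defined at an odd point of
such an arc maps it into the arc `nx σ c`, whose line is `ρ (sg σ) • c.2`.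

`caseI`: so the labels of all words which return to an odd point `e` of the arc `c₀` fix the
line of `c₀`.
-/

set_option autoImplicit false
set_option linter.unusedSectionVars false
set_option linter.unusedVariables false
set_option linter.unnecessarySeqFocus false

open Finset

namespace Pool.Agent.FrZ

variable {J I Γ : Type} [Group Γ]

/-- `Good` is inherited by the integral systems. -/
theorem good_int [Fintype J] [Fintype I] (X : Sys J I ℝ) (hX : X.Good) :
    ∃ F₀ : Finset ℝ, (∀ f ∈ F₀, 0 < f) ∧ ∀ (L : ℝ →+ ℚ) (X' : Sys J I ℤ), Tp L X X' →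
      (∀ f ∈ F₀, 0 < L f) → X'.Good := by
  classical
  set C : Finset ℝ := (univ.image X.lo ∪ univ.image X.hi) ∪
    (univ.image X.dl ∪ univ.image (fun σ : J × Bool => X.dl σ + X.l σ.1)) with hC
  refine ⟨((C ×ˢ C).filter (fun z => z.1 < z.2)).image (fun z => z.2 - z.1), ?_, ?_⟩
  · intro f hf
    rw [mem_image] at hf
    obtain ⟨z, hz, rfl⟩ := hf
    exact sub_pos.2 (mem_filter.1 hz).2
  · intro L X' T hF
    have hmono : ∀ c ∈ C, ∀ d ∈ C, c < d → L c < L d := by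
      intro c hc d hd hcd
      have := hF (d - c) (by
        rw [mem_image]
        exact ⟨(c, d), mem_filter.2 ⟨mem_product.2 ⟨hc, hd⟩, hcd⟩, rfl⟩)
      rw [map_sub] at this
      linarith
    have hle : ∀ c ∈ C, ∀ d ∈ C, c ≤ d → L c ≤ L d := by
      intro c hc d hd hcd
      rcases hcd.lt_or_eq with h | h
      · exact (hmono c hc d hd h).le
      · rw [h]
    have hlo : ∀ i, X.lo i ∈ C := fun i => by simp [hC]
    have hhi : ∀ i, X.hi i ∈ C := fun i => by simp [hC]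
    have hdl : ∀ σ, X.dl σ ∈ C := fun σ => by
      rw [hC]
      exact mem_union_right _ (mem_union_left _ (mem_image_of_mem _ (mem_univ σ)))
    have hdl' : ∀ σ : J × Bool, X.dl σ + X.l σ.1 ∈ C := fun σ => by
      rw [hC]
      exact mem_union_right _ (mem_union_right _
        (mem_image_of_mem (fun σ : J × Bool => X.dl σ + X.l σ.1) (mem_univ σ)))
    refine { l_pos := ?_, lt := ?_, disj := ?_, dom := ?_ }
    · intro j
      have h1 := hmono _ (hdl (j, true)) _ (hdl' (j, true)) (by linarith [hX.l_pos j])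
      rw [map_add] at h1
      have h2 : (0 : ℚ) < X'.l j := by
        rw [T.l]
        simp only at h1
        linarith
      exact_mod_cast h2
    · intro i
      have h1 := hmono _ (hlo i) _ (hhi i) (hX.lt i)
      rw [← T.lo, ← T.hi] at h1
      exact_mod_cast h1
    · intro i i' hne
      rcases hX.disj i i' hne with h | h
      · left
        have h1 := hmono _ (hhi i) _ (hlo i') h
        rw [← T.lo, ← T.hi] at h1
        exact_mod_cast h1
      · right
        have h1 := hmono _ (hhi i') _ (hlo i) h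
        rw [← T.lo, ← T.hi] at h1
        exact_mod_cast h1
    · intro σ
      have hdc : X'.dc σ = X.dc σ := by
        unfold Sys.dc
        rw [T.ca, T.cb]
      rw [hdc]
      have h1 := hle _ (hlo (X.dc σ)) _ (hdl σ) (hX.dom σ).1
      have h2 := hle _ (hdl' σ) _ (hhi (X.dc σ)) (hX.dom σ).2
      rw [← T.lo, ← T.dl] at h1
      rw [map_add, ← T.hi, ← T.dl, ← T.l] at h2
      exact ⟨by exact_mod_cast h1, by exact_mod_cast h2⟩

namespace Fam

variable {X : Sys J I ℝ} {ρ : FreeGroup J →* Γ} {F : Type} [MulAction Γ F] (A : Fam X ρ F)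

/-- Everything about the integral arcs of the component `C` of `c₀`. -/
structure IntArcs (A : Fam X ρ F) (C : Set (I × F)) (L : ℝ →+ ℚ) (X' : Sys J I ℤ) : Prop where
  /-- the integral arcs are nonempty and have even ends -/
  lt : ∀ c ∈ C, Lz L (A.p c) < Lz L (A.q c)
  ep : ∀ c ∈ C, Even (Lz L (A.p c))
  eq : ∀ c ∈ C, Even (Lz L (A.q c))
  /-- they are in the right component -/
  comp : ∀ c ∈ C, X'.lo c.1 ≤ Lz L (A.p c) ∧ Lz L (A.q c) ≤ X'.hi c.1
  /-- they are disjoint -/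
  disj : ∀ c ∈ C, ∀ c' ∈ C, ∀ e : ℤ, Lz L (A.p c) < e → e < Lz L (A.q c) →
    Lz L (A.p c') < e → e < Lz L (A.q c') → c = c'
  /-- a step maps an odd point of an arc to an odd point of the next arc -/
  step : ∀ c ∈ C, ∀ e : ℤ, Odd e → Lz L (A.p c) < e → e < Lz L (A.q c) → ∀ σ d,
    X'.OK 0 σ (e, d) → nx X ρ σ c ∈ C ∧ X.dc σ = c.1 ∧ Odd (X'.mvx σ e) ∧
      Lz L (A.p (nx X ρ σ c)) < X'.mvx σ e ∧ X'.mvx σ e < Lz L (A.q (nx X ρ σ c))

/-- words map odd points of arcs to odd points of arcs -/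
theorem IntArcs.word {C : Set (I × F)} {L : ℝ →+ ℚ} {X' : Sys J I ℤ} (hA : IntArcs A C L X')
    (w : List (J × Bool)) : ∀ (c : I × F) (e : ℤ) (d : Bool), c ∈ C → Odd e →
      Lz L (A.p c) < e → e < Lz L (A.q c) → X'.Valid (X'.OK 0) w (e, d) →
      ∃ c' ∈ C, c'.2 = ρ (lab w) • c.2 ∧ Odd (X'.run w (e, d)).1 ∧
        Lz L (A.p c') < (X'.run w (e, d)).1 ∧ (X'.run w (e, d)).1 < Lz L (A.q c') := by
  induction w with
  | nil =>
    intro c e d hc he h1 h2 _
    exact ⟨c, hc, by simp [lab], he, h1, h2⟩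
  | cons σ w ih =>
    intro c e d hc he h1 h2 hv
    obtain ⟨h3, -, h4, h5, h6⟩ := hA.step c hc e he h1 h2 σ d hv.1
    obtain ⟨c', hc', h7, h8⟩ := ih (nx X ρ σ c) (X'.mv σ (e, d)).1 (X'.mv σ (e, d)).2 h3 h4 h5 h6
      hv.2
    refine ⟨c', hc', ?_, h8⟩
    rw [h7]
    simp [nx, lab, mul_smul]

/-- words which return to an odd point of an arc fix its line -/
theorem IntArcs.loop {C : Set (I × F)} {L : ℝ →+ ℚ} {X' : Sys J I ℤ} (hA : IntArcs A C L X')
    {c : I × F} {e : ℤ} {d : Bool} (hc : c ∈ C) (he : Odd e) (h1 : Lz L (A.p c) < e)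
    (h2 : e < Lz L (A.q c)) {w : List (J × Bool)} (hv : X'.Valid (X'.OK 0) w (e, d))
    (hr : (X'.run w (e, d)).1 = e) : ρ (lab w) • c.2 = c.2 := by
  obtain ⟨c', hc', h3, -, h4, h5⟩ := hA.word A w c e d hc he h1 h2 hv
  rw [hr] at h4 h5
  have h6 := hA.disj c hc c' hc' e h1 h2 h4 h5
  rw [← h3, ← h6]

/-- Passage to the integral systems, for a finite set `D` of arcs which is closed under adjacency. -/
theorem int_closed [Fintype J] [Fintype I] (hX : X.Good) {D : Set (I × F)} (hfin : D.Finite)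
    (hpres : ∀ c ∈ D, A.p c < A.q c) (hcl : ∀ c ∈ D, ∀ c', A.Adj c c' → c' ∈ D) :
    ∃ F₀ E₀ : Finset ℝ, (∀ f ∈ F₀, 0 < f) ∧ ∀ (L : ℝ →+ ℚ) (X' : Sys J I ℤ), Tp L X X' →
      (∀ f ∈ F₀, 0 < L f) → (∀ x ∈ E₀, x ∈ Lam L) → X'.Good ∧ A.IntArcs D L X' := by
  classical
  obtain ⟨F₁, hF₁, hgood⟩ := good_int X hX
  set C := hfin.toFinset with hCdef
  have hCm : ∀ c, c ∈ C ↔ c ∈ D := fun c => hfin.mem_toFinset
  -- the relevant points
  set P : Finset ℝ := (C.image A.p ∪ C.image A.q) ∪ ((univ.image X.lo ∪ univ.image X.hi) ∪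
    (univ.image X.dl ∪ univ.image (fun σ : J × Bool => X.dl σ + X.l σ.1))) with hP
  set Q : Finset ℝ := P ∪ (univ ×ˢ P).image (fun z : (J × Bool) × ℝ => X.mvx z.1 z.2) with hQ
  refine ⟨F₁ ∪ ((Q ×ˢ Q).filter (fun z => z.1 < z.2)).image (fun z => z.2 - z.1), P, ?_, ?_⟩
  · intro f hf
    rw [mem_union, mem_image] at hf
    rcases hf with hf | ⟨z, hz, rfl⟩
    · exact hF₁ f hf
    · exact sub_pos.2 (mem_filter.1 hz).2
  intro L X' T hF hE
  have hG : X'.Good := hgood L X' T fun f hf => hF f (mem_union_left _ hf)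
  refine ⟨hG, ?_⟩
  have hPQ : P ⊆ Q := subset_union_left
  have hmvQ : ∀ σ, ∀ x ∈ P, X.mvx σ x ∈ Q := fun σ x hx => by
    rw [hQ]
    exact mem_union_right _ (mem_image.2 ⟨(σ, x), mem_product.2 ⟨mem_univ _, hx⟩, rfl⟩)
  have hQL : ∀ c ∈ Q, c ∈ Lam L := by
    intro c hc
    rw [hQ, mem_union, mem_image] at hc
    rcases hc with hc | ⟨z, hz, rfl⟩
    · exact hE c hc
    · exact T.mem_mvx z.1 (hE _ (mem_product.1 hz).2)
  have hmono : ∀ c ∈ Q, ∀ d ∈ Q, c < d → L c < L d := by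
    intro c hc d hd hcd
    have := hF (d - c) (by
      rw [mem_union, mem_image]
      exact Or.inr ⟨(c, d), mem_filter.2 ⟨mem_product.2 ⟨hc, hd⟩, hcd⟩, rfl⟩)
    rw [map_sub] at this
    linarith
  have hlt : ∀ {c d : ℝ}, c ∈ Q → d ∈ Q → (Lz L c < Lz L d ↔ c < d) := fun hc hd =>
    Tp.lz_lt hQL hmono hc hd
  have hle : ∀ {c d : ℝ}, c ∈ Q → d ∈ Q → (Lz L c ≤ Lz L d ↔ c ≤ d) := fun hc hd =>
    Tp.lz_le hQL hmono hc hd
  have hpP : ∀ c ∈ D, A.p c ∈ P := fun c hc => by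
    rw [hP]
    exact mem_union_left _ (mem_union_left _ (mem_image_of_mem _ ((hCm c).2 hc)))
  have hqP : ∀ c ∈ D, A.q c ∈ P := fun c hc => by
    rw [hP]
    exact mem_union_left _ (mem_union_right _ (mem_image_of_mem _ ((hCm c).2 hc)))
  have hloP : ∀ i, X.lo i ∈ P := fun i => by
    rw [hP]
    exact mem_union_right _ (mem_union_left _ (mem_union_left _ (mem_image_of_mem _ (mem_univ i))))
  have hhiP : ∀ i, X.hi i ∈ P := fun i => by
    rw [hP]
    exact mem_union_right _ (mem_union_left _ (mem_union_right _ (mem_image_of_mem _ (mem_univ i))))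
  have hdlP : ∀ σ, X.dl σ ∈ P := fun σ => by
    rw [hP]
    exact mem_union_right _ (mem_union_right _ (mem_union_left _ (mem_image_of_mem _ (mem_univ σ))))
  have hdlP' : ∀ σ : J × Bool, X.dl σ + X.l σ.1 ∈ P := fun σ => by
    rw [hP]
    exact mem_union_right _ (mem_union_right _ (mem_union_right _
      (mem_image_of_mem (fun σ : J × Bool => X.dl σ + X.l σ.1) (mem_univ σ))))
  have hloL : ∀ i, Lz L (X.lo i) = X'.lo i := fun i => by
    rw [Lz_eq (T.mem_lo i), T.lo]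
  have hhiL : ∀ i, Lz L (X.hi i) = X'.hi i := fun i => by
    rw [Lz_eq (T.mem_hi i), T.hi]
  have hdlL : ∀ σ, Lz L (X.dl σ) = X'.dl σ := fun σ => by
    rw [Lz_eq (T.mem_dl σ), T.dl]
  have hdlL' : ∀ σ : J × Bool, Lz L (X.dl σ + X.l σ.1) = X'.dl σ + X'.l σ.1 := fun σ => by
    rw [Lz_eq ((Lam L).add_mem (T.mem_dl σ) (T.mem_l _))]
    push_cast
    rw [map_add, T.dl, T.l]
  have hcomp : ∀ c ∈ D, X'.lo c.1 ≤ Lz L (A.p c) ∧ Lz L (A.q c) ≤ X'.hi c.1 := by
    intro c hc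
    have h := A.lo c (hpres c hc)
    rw [← hloL, ← hhiL]
    exact ⟨(hle (hPQ (hloP _)) (hPQ (hpP c hc))).2 h.1, (hle (hPQ (hqP c hc)) (hPQ (hhiP _))).2 h.2⟩
  -- a point is in one component only
  have hone : ∀ (i i' : I) (e : ℤ), X'.lo i ≤ e → e ≤ X'.hi i → X'.lo i' ≤ e → e ≤ X'.hi i' →
      i = i' := by
    intro i i' e h1 h2 h3 h4
    by_contra hne
    rcases hG.disj i i' hne with h | h <;> omega
  have hdc : ∀ σ, X'.dc σ = X.dc σ := fun σ => by
    unfold Sys.dc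
    rw [T.ca, T.cb]
  refine { lt := ?_, ep := ?_, eq := ?_, comp := hcomp, disj := ?_, step := ?_ }
  · intro c hc
    exact (hlt (hPQ (hpP c hc)) (hPQ (hqP c hc))).2 (hpres c hc)
  · intro c hc
    exact Lz_even (hQL _ (hPQ (hpP c hc)))
  · intro c hc
    exact Lz_even (hQL _ (hPQ (hqP c hc)))
  · rintro ⟨i, f⟩ hc ⟨i', f'⟩ hc' e h1 h2 h3 h4
    have hii : i = i' := hone i i' e ((hcomp _ hc).1.trans h1.le) (h2.le.trans (hcomp _ hc).2)
      ((hcomp _ hc').1.trans h3.le) (h4.le.trans (hcomp _ hc').2)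
    subst hii
    by_contra hne
    have hff : f ≠ f' := fun h => hne (by rw [h])
    rcases A.tr i f f' hff (hpres _ hc) (hpres _ hc') with h | h
    · have := (hle (hPQ (hqP _ hc)) (hPQ (hpP _ hc'))).2 h
      omega
    · have := (hle (hPQ (hqP _ hc')) (hPQ (hpP _ hc))).2 h
      omega
  · intro c hc e he h1 h2 σ d hok
    rw [Sys.OK_iff] at hok
    have hdom := hG.dom σ
    have hci : X.dc σ = c.1 := by
      rw [← hdc]
      refine hone _ _ e ?_ ?_ ((hcomp _ hc).1.trans h1.le) (h2.le.trans (hcomp _ hc).2)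
      · linarith [hdom.1, hok.1]
      · linarith [hdom.2, hok.2]
    -- parity makes the inequalities strict
    have hs1 : X'.dl σ < e := by
      have h3 := T.edl σ
      rcases (show X'.dl σ ≤ e by linarith [hok.1]).lt_or_eq with h4 | h4
      · exact h4
      · rw [h4] at h3
        exact absurd h3 (Int.not_even_iff_odd.2 he)
    have hs2 : e < X'.dl σ + X'.l σ.1 := by
      have h3 := (T.edl σ).add (T.el σ.1)
      rcases (show e ≤ X'.dl σ + X'.l σ.1 by linarith [hok.2]).lt_or_eq with h4 | h4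
      · exact h4
      · rw [← h4] at h3
        exact absurd h3 (Int.not_even_iff_odd.2 he)
    have huP : A.u σ c ∈ P := by
      unfold u
      rcases max_choice (A.p c) (X.dl σ) with h | h <;> rw [h]
      · exact hpP c hc
      · exact hdlP σ
    have hvP : A.v σ c ∈ P := by
      unfold v
      rcases min_choice (A.q c) (X.dl σ + X.l σ.1) with h | h <;> rw [h]
      · exact hqP c hc
      · exact hdlP' σ
    have hue : Lz L (A.u σ c) < e := by
      unfold u
      rcases max_choice (A.p c) (X.dl σ) with h | h <;> rw [h]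
      · exact h1
      · rw [hdlL]; exact hs1
    have hev : e < Lz L (A.v σ c) := by
      unfold v
      rcases min_choice (A.q c) (X.dl σ + X.l σ.1) with h | h <;> rw [h]
      · exact h2
      · rw [hdlL']; exact hs2
    have huv : A.u σ c < A.v σ c := (hlt (hPQ huP) (hPQ hvP)).1 (hue.trans hev)
    have hadj : A.Adj c (nx X ρ σ c) := ⟨σ, hci, huv, rfl⟩
    have hnx : nx X ρ σ c ∈ D := hcl c hc _ hadj
    obtain ⟨u1, u2⟩ := A.uv σ c hci huv _ le_rfl huv.le
    obtain ⟨v1, v2⟩ := A.uv σ c hci huv _ huv.le le_rfl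
    have u1' := (hle (hPQ (hpP _ hnx)) (hmvQ σ _ huP)).2 u1
    have u2' := (hle (hmvQ σ _ huP) (hPQ (hqP _ hnx))).2 u2
    have v1' := (hle (hPQ (hpP _ hnx)) (hmvQ σ _ hvP)).2 v1
    have v2' := (hle (hmvQ σ _ hvP) (hPQ (hqP _ hnx))).2 v2
    rw [← T.mvx σ (hQL _ (hPQ huP))] at u1' u2'
    rw [← T.mvx σ (hQL _ (hPQ hvP))] at v1' v2'
    refine ⟨hnx, hci, ?_, ?_⟩
    · exact X'.odd_mvx (fun σ => T.edl σ) T.el σ he
    · have hfl : (X'.mvx σ (Lz L (A.u σ c)) < X'.mvx σ e ∧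
          X'.mvx σ e < X'.mvx σ (Lz L (A.v σ c))) ∨
          (X'.mvx σ (Lz L (A.v σ c)) < X'.mvx σ e ∧
          X'.mvx σ e < X'.mvx σ (Lz L (A.u σ c))) := by
        unfold Sys.mvx
        by_cases hf : X'.fl σ.1 = true
        · simp only [hf, if_true]
          right
          constructor <;> omega
        · simp only [hf]
          left
          constructor <;> simp <;> omega
      rcases hfl with ⟨h3, h4⟩ | ⟨h3, h4⟩ <;> constructor <;> omega

/-- Passage to the integral systems, for the components of the arcs of a finite set `S`: the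
integral arcs of all these components are pairwise disjoint. -/
theorem int_finite [Fintype J] [Fintype I] (hX : X.Good) {S : Set (I × F)} (hS : S.Finite)
    (hpr : ∀ c ∈ S, A.p c < A.q c) :
    ∃ F₀ E₀ : Finset ℝ, (∀ f ∈ F₀, 0 < f) ∧ ∀ (L : ℝ →+ ℚ) (X' : Sys J I ℤ), Tp L X X' →
      (∀ f ∈ F₀, 0 < L f) → (∀ x ∈ E₀, x ∈ Lam L) →
      X'.Good ∧ A.IntArcs (⋃ c ∈ S, A.Comp c) L X' := by
  refine A.int_closed hX (Set.Finite.biUnion hS fun c hc => A.comp_finite (hpr c hc)) ?_ ?_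
  · intro c hc
    simp only [Set.mem_iUnion] at hc
    obtain ⟨c₀, hc₀, hc⟩ := hc
    induction hc with
    | refl => exact hpr c₀ hc₀
    | tail _ h _ => exact Adj.present A h
  · intro c hc c' hcc
    simp only [Set.mem_iUnion] at hc ⊢
    obtain ⟨c₀, hc₀, hc⟩ := hc
    exact ⟨c₀, hc₀, Relation.ReflTransGen.tail hc hcc⟩

/-- Passage to the integral systems, for one component. -/
theorem int [Fintype J] [Fintype I] (hX : X.Good) {c₀ : I × F} (hc₀ : A.p c₀ < A.q c₀) :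
    ∃ F₀ E₀ : Finset ℝ, (∀ f ∈ F₀, 0 < f) ∧ ∀ (L : ℝ →+ ℚ) (X' : Sys J I ℤ), Tp L X X' →
      (∀ f ∈ F₀, 0 < L f) → (∀ x ∈ E₀, x ∈ Lam L) → X'.Good ∧ A.IntArcs (A.Comp c₀) L X' := by
  have h := A.int_finite hX (S := {c₀}) (Set.finite_singleton _) (by
    intro c hc
    rw [Set.mem_singleton_iff.1 hc]
    exact hc₀)
  rwa [Set.biUnion_singleton] at h

end Fam

/-- THEOREM R, CASE I.  A transverse family of lines with abelian stabilisers, one of which contains
two different points of a component: for every admissible `L` there is a unit edge `e` of the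
integral system such that the labels of the words which return to `e` fix a line `f₀`. -/
theorem caseI [Fintype J] [Fintype I] {F : Type} [MulAction Γ F] (X : Sys J I ℝ) (hX : X.Good)
    (ρ : FreeGroup J →* Γ) (M : F → Set ℝ)
    (hconv : ∀ f i, (M f ∩ Set.Icc (X.lo i) (X.hi i)).OrdConnected)
    (htr : ∀ f f' i, f ≠ f' → (M f ∩ M f' ∩ Set.Icc (X.lo i) (X.hi i)).Subsingleton)
    (hst : ∀ f σ x, x ∈ M f → X.dl σ ≤ x → x ≤ X.dl σ + X.l σ.1 → X.mvx σ x ∈ M (ρ (sg σ) • f))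
    (f₀ : F) (i₀ : I) (x₀ y₀ : ℝ) (hxy : x₀ < y₀) (hx₀ : x₀ ∈ M f₀) (hy₀ : y₀ ∈ M f₀)
    (hx₀i : X.lo i₀ ≤ x₀) (hy₀i : y₀ ≤ X.hi i₀) :
    ∃ F₀ E₀ : Finset ℝ, (∀ f ∈ F₀, 0 < f) ∧ ∀ (L : ℝ →+ ℚ) (X' : Sys J I ℤ), Tp L X X' →
      (∀ f ∈ F₀, 0 < L f) → (∀ x ∈ E₀, x ∈ Lam L) →
      X'.Good ∧ ∃ e i, X'.lo i < e ∧ e < X'.hi i ∧ Odd e ∧ ∀ γ d,
        X'.Valid (X'.OK 0) γ (e, d) → (X'.run γ (e, d)).1 = e → ρ (lab γ) • f₀ = f₀ := by
  set A := Fam.ofSets hX M hconv htr hst with hA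
  have hmx : x₀ ∈ M f₀ ∩ Set.Icc (X.lo i₀) (X.hi i₀) := ⟨hx₀, hx₀i, hxy.le.trans hy₀i⟩
  have hmy : y₀ ∈ M f₀ ∩ Set.Icc (X.lo i₀) (X.hi i₀) := ⟨hy₀, hx₀i.trans hxy.le, hy₀i⟩
  have hc₀ : A.p (i₀, f₀) < A.q (i₀, f₀) := by
    have h1 : A.p (i₀, f₀) ≤ x₀ := csInf_le ⟨X.lo i₀, fun x hx => hx.2.1⟩ hmx
    have h2 : y₀ ≤ A.q (i₀, f₀) := le_csSup ⟨X.hi i₀, fun x hx => hx.2.2⟩ hmy
    linarith
  obtain ⟨F₀, E₀, h1, h2⟩ := A.int hX hc₀
  refine ⟨F₀, E₀, h1, fun L X' T hF hE => ?_⟩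
  obtain ⟨hG, hI⟩ := h2 L X' T hF hE
  have hmem : (i₀, f₀) ∈ A.Comp (i₀, f₀) := Relation.ReflTransGen.refl
  have hlt := hI.lt _ hmem
  obtain ⟨m, hm⟩ := hI.ep _ hmem
  obtain ⟨n, hn⟩ := hI.eq _ hmem
  have hcomp := hI.comp _ hmem
  simp only at hcomp
  refine ⟨hG, Lz L (A.p (i₀, f₀)) + 1, i₀, by omega, by omega, ?_, ?_⟩
  · exact (hI.ep _ hmem).add_odd odd_one
  · intro γ d hv hr
    exact hI.loop A hmem ((hI.ep _ hmem).add_odd odd_one) (by omega) (by omega) hv hr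

end Pool.Agent.FrZ
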