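import Pool.Agent.Lib.MP_305fdd_al.Fr.CI.Main
import Pool.Agent.Lib.MP_305fdd_al.Fr.R.Defs

/-!
# MP_305fdd_al, Theorem R: the statement `S_CaseI` (CASE I in the language of systems)
-/

set_option autoImplicit false
set_option linter.unusedSectionVars false
set_option linter.unusedVariables false
set_option linter.unnecessarySeqFocus false

open Finset

namespace Pool.Agent.FrZ

variable {J I Γ : Type} [Group Γ]

/-- The family belonging to traces `M i f` of the lines on the components. -/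
noncomputable def Fam.ofTraces {X : Sys J I ℝ} (hX : X.Good) {ρ : FreeGroup J →* Γ} {F : Type}
    [MulAction Γ F] (M : I → F → Set ℝ) (hsub : ∀ i f, M i f ⊆ Set.Icc (X.lo i) (X.hi i))
    (hconv : ∀ i f, (M i f).OrdConnected)
    (htr : ∀ i f f' x y, x ∈ M i f → x ∈ M i f' → y ∈ M i f → y ∈ M i f' → x ≠ y → f = f')
    (hst : ∀ (σ : J × Bool) (x : ℝ) (f : F), X.dl σ ≤ x → x ≤ X.dl σ + X.l σ.1 →
      x ∈ M (X.dc σ) f → X.mvx σ x ∈ M (X.dc (inv σ)) (ρ (sg σ) • f)) : Fam X ρ F := by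
  classical
  let S : I × F → Set ℝ := fun c => M c.1 c.2
  have hbb : ∀ c, BddBelow (S c) := fun c => ⟨X.lo c.1, fun x hx => (hsub _ _ hx).1⟩
  have hba : ∀ c, BddAbove (S c) := fun c => ⟨X.hi c.1, fun x hx => (hsub _ _ hx).2⟩
  have hne : ∀ c, sInf (S c) < sSup (S c) → (S c).Nonempty := by
    intro c h
    rw [Set.nonempty_iff_ne_empty]
    intro h'
    rw [h'] at h
    simp at h
  have hin : ∀ c x, sInf (S c) < x → x < sSup (S c) → x ∈ S c := by
    intro c x h1 h2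
    have hn := hne c (h1.trans h2)
    obtain ⟨y, hy, hyx⟩ := exists_lt_of_csInf_lt hn h1
    obtain ⟨z, hz, hxz⟩ := exists_lt_of_lt_csSup hn h2
    exact (hconv c.1 c.2).out hy hz ⟨hyx.le, hxz.le⟩
  refine { p := fun c => sInf (S c), q := fun c => sSup (S c), lo := ?_, tr := ?_, st := ?_ }
  · intro c h
    have hn := hne c h
    exact ⟨le_csInf hn fun x hx => (hsub _ _ hx).1, csSup_le hn fun x hx => (hsub _ _ hx).2⟩
  · intro i f f' hff h1 h2
    by_contra hcon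
    push Not at hcon
    obtain ⟨h3, h4⟩ := hcon
    have h5 : max (sInf (S (i, f))) (sInf (S (i, f'))) <
        min (sSup (S (i, f))) (sSup (S (i, f'))) := by
      rw [lt_min_iff, max_lt_iff, max_lt_iff]
      exact ⟨⟨h1, h3⟩, ⟨h4, h2⟩⟩
    obtain ⟨x, hx1, hx2⟩ := exists_between h5
    obtain ⟨y, hy1, hy2⟩ := exists_between hx2
    have hx1' := max_lt_iff.1 hx1
    have hy2' := lt_min_iff.1 hy2
    have hx2' := lt_min_iff.1 hx2
    have hxf := hin (i, f) x hx1'.1 hx2'.1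
    have hxf' := hin (i, f') x hx1'.2 hx2'.2
    have hyf := hin (i, f) y (hx1'.1.trans hy1) hy2'.1
    have hyf' := hin (i, f') y (hx1'.2.trans hy1) hy2'.2
    exact hff (htr i f f' x y hxf hxf' hyf hyf' hy1.ne)
  · intro σ f x h1 h2 h3 h4
    have hx := hin _ x h1 h2
    have h5 : X.mvx σ x ∈ S (X.dc (inv σ), ρ (sg σ) • f) := hst σ x f h3 h4 hx
    exact ⟨csInf_le (hbb _) h5, le_csSup (hba _) h5⟩

end Pool.Agent.FrZ

namespace Pool.Agent.FrR

open Pool.Agent.FrZ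

theorem s_CaseI : S_CaseI := by
  intro J I Γ F _ _ _ _ X ρ M hX hsub hcl hconv htr hst i0 f0 x0 y0 hx0 hy0 hxy
  classical
  set A := Fam.ofTraces hX M hsub hconv htr hst with hA
  have hc₀ : A.p (i0, f0) < A.q (i0, f0) := by
    have h1 : A.p (i0, f0) ≤ x0 := csInf_le ⟨X.lo i0, fun x hx => (hsub _ _ hx).1⟩ hx0
    have h2 : y0 ≤ A.q (i0, f0) := le_csSup ⟨X.hi i0, fun x hx => (hsub _ _ hx).2⟩ hy0
    linarith
  obtain ⟨F₀, E₀, h1, h2⟩ := A.int hX hc₀
  refine ⟨F₀, E₀, h1, fun L X' T hF hE => ?_⟩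
  obtain ⟨hG, hI⟩ := h2 L X' T hF hE
  have hmem : (i0, f0) ∈ A.Comp (i0, f0) := Relation.ReflTransGen.refl
  have hlt := hI.lt _ hmem
  obtain ⟨m, hm⟩ := hI.ep _ hmem
  obtain ⟨n, hn⟩ := hI.eq _ hmem
  have hcomp := hI.comp _ hmem
  simp only at hcomp
  refine ⟨hG, Lz L (A.p (i0, f0)) + 1, i0, by omega, by omega, ?_, 1, ?_⟩
  · exact (hI.ep _ hmem).add_odd odd_one
  · intro γ d hv hr
    rw [one_smul]
    exact hI.loop A hmem ((hI.ep _ hmem).add_odd odd_one) (by omega) (by omega) hv hr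

end Pool.Agent.FrR
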