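import Pool.Agent.Lib.MP_305fdd_al.Fr.CI.Tree
import Pool.Agent.Lib.MP_305fdd_al.Fr.CI.CaseI
import Pool.Agent.Lib.MP_305fdd_al.Fr.Z.Main
import Pool.Agent.Lib.MP_305fdd_al.Fr.Z.Exist

/-!
# MP_305fdd_al, Theorem R: proof of the combinatorial form `S_Comb`
-/

set_option autoImplicit false
set_option linter.unusedSectionVars false
set_option linter.unusedVariables false
set_option linter.unnecessarySeqFocus false

open Finset

namespace Pool.Agent.FrR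

open Pool.Agent.FrZ

variable {J I Γ T : Type} [Group Γ] [MetricSpace T] [MulAction Γ T] {X : Sys J I ℝ}
  {ρ : FreeGroup J →* Γ} {ι : I → ℝ → T}

/-- the displacement condition for all members of `G`, conjugated by `k` -/
def Dis (G : Set (Γ × ℝ)) (k : Γ) (p : T) : Prop :=
  ∀ z ∈ G, dist p ((k * z.1 * k⁻¹) • p) ≤ z.2

theorem Dis.conj {G : Set (Γ × ℝ)} (hS : Small Γ T) {k a : Γ} {p : T} (h : Dis G k p) :
    Dis G (a * k) (a • p) := by
  intro z hz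
  have h1 := h z hz
  have h2 : (a * k * z.1 * (a * k)⁻¹) • a • p = a • (k * z.1 * k⁻¹) • p := by
    rw [smul_smul, smul_smul]
    congr 1
    group
  rw [h2, hS.isom]
  exact h1

theorem Dis.comm {G : Set (Γ × ℝ)} (hS : Small Γ T) {h0 : Γ} (hh0 : h0 ≠ 1)
    (hG : ∀ z ∈ G, h0 * z.1 = z.1 * h0) {k c : Γ} (hc : h0 * c = c * h0) {p : T}
    (h : Dis G k p) : Dis G (k * c) p := by
  intro z hz
  have h1 := h z hz
  have h2 : c * z.1 = z.1 * c := hS.ct h0 c z.1 hh0 hc (hG z hz)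
  have h3 : k * c * z.1 * (k * c)⁻¹ = k * z.1 * k⁻¹ := by
    rw [mul_assoc k c, h2]
    group
  rw [h3]
  exact h1

/-- The traces of a family of subtrees on the components give CASE I. -/
theorem scheme [Fintype J] [Fintype I] (hT : IsRT T) (hS : Small Γ T) (hX : X.Good)
    (hR : Rln X ρ ι) {h0 : Γ} (hh0 : h0 ≠ 1) {G : Set (Γ × ℝ)}
    (hG : ∀ z ∈ G, h0 * z.1 = z.1 * h0)
    (htr : ∀ i x y k₁ k₂, X.lo i ≤ x → x < y → y ≤ X.hi i → Dis G k₁ (ι i x) →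
      Dis G k₁ (ι i y) → Dis G k₂ (ι i x) → Dis G k₂ (ι i y) →
      h0 * (k₁⁻¹ * k₂) = k₁⁻¹ * k₂ * h0)
    {i0 : I} {x0 y0 : ℝ} (h1 : X.lo i0 ≤ x0) (h2 : x0 < y0) (h3 : y0 ≤ X.hi i0)
    (h4 : Dis G 1 (ι i0 x0)) (h5 : Dis G 1 (ι i0 y0)) :
    ∃ (F₀ E₀ : Finset ℝ), (∀ f ∈ F₀, 0 < f) ∧
      ∀ (L : ℝ →+ ℚ) (X' : Sys J I ℤ), Tp L X X' → (∀ f ∈ F₀, 0 < L f) →
        (∀ x ∈ E₀, x ∈ Lam L) →
        X'.Good ∧ ∃ e i, X'.lo i < e ∧ e < X'.hi i ∧ Odd e ∧
          ∀ γ d γ' d', X'.Valid (X'.OK 0) γ (e, d) → (X'.run γ (e, d)).1 = e →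
            X'.Valid (X'.OK 0) γ' (e, d') → (X'.run γ' (e, d')).1 = e →
            ρ (lab γ) * ρ (lab γ') = ρ (lab γ') * ρ (lab γ) := by
  classical
  set C : Subgroup Γ := Subgroup.centralizer {h0} with hC
  have hCm : ∀ c, c ∈ C ↔ h0 * c = c * h0 := fun c => by
    rw [hC, Subgroup.mem_centralizer_iff]
    simp
  have hout : ∀ k : Γ, ∃ c, h0 * c = c * h0 ∧ ((k : Γ ⧸ C)).out = k * c := by
    intro k
    have h6 : (((k : Γ ⧸ C)).out : Γ ⧸ C) = (k : Γ ⧸ C) := QuotientGroup.out_eq' _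
    have h7 := QuotientGroup.eq.1 h6.symm
    exact ⟨k⁻¹ * ((k : Γ ⧸ C)).out, (hCm _).1 h7, by group⟩
  let M : I → Γ ⧸ C → Set ℝ := fun i f => {x | (X.lo i ≤ x ∧ x ≤ X.hi i) ∧ Dis G f.out (ι i x)}
  have hM : ∀ i (k : Γ) x, x ∈ M i (k : Γ ⧸ C) ↔
      (X.lo i ≤ x ∧ x ≤ X.hi i) ∧ Dis G k (ι i x) := by
    intro i k x
    obtain ⟨c, hc1, hc2⟩ := hout k
    show _ ∧ Dis G ((k : Γ ⧸ C)).out (ι i x) ↔ _
    rw [hc2]
    refine and_congr_right fun _ => ⟨fun h => ?_, fun h => h.comm hS hh0 hG hc1⟩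
    have h8 := h.comm hS hh0 hG (c := c⁻¹) (by
      have := congrArg (fun z => c⁻¹ * z * c⁻¹) hc1
      simp only [mul_assoc] at this
      rw [mul_inv_cancel, mul_one, inv_mul_cancel_left] at this
      exact this.symm)
    rwa [mul_inv_cancel_right] at h8
  obtain ⟨F₀, E₀, hF₀, hmain⟩ := s_CaseI J I Γ (Γ ⧸ C) X ρ M hX (fun i f x hx => hx.1) (by
      -- closed
      intro i f
      have e : M i f = (Set.Icc (X.lo i) (X.hi i)) ∩ ⋂ z ∈ G, ((Set.Icc (X.lo i) (X.hi i)) ∩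
          (fun x => dist (ι i x) ((f.out * z.1 * f.out⁻¹) • ι i x)) ⁻¹' Set.Iic z.2) := by
        ext x
        simp only [M, Set.mem_ofPred_eq, Set.mem_inter_iff, Set.mem_iInter, Set.mem_preimage,
          Set.mem_Iic, Set.mem_Icc, Dis]
        constructor
        · rintro ⟨h6, h7⟩
          exact ⟨h6, fun z hz => ⟨h6, h7 z hz⟩⟩
        · rintro ⟨h6, h7⟩
          exact ⟨h6, fun z hz => (h7 z hz).2⟩
      rw [e]
      refine isClosed_Icc.inter (isClosed_biInter fun z _ => ?_)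
      refine ContinuousOn.preimage_isClosed_of_isClosed ?_ isClosed_Icc isClosed_Iic
      refine (LipschitzOnWith.of_dist_le_mul (K := 2) ?_).continuousOn
      intro x hx y hy
      have h6 := hR.iso i x y hx.1 hx.2 hy.1 hy.2
      rw [Real.dist_eq, Real.dist_eq]
      have h7 := dist_dist_dist_le (ι i x) ((f.out * z.1 * f.out⁻¹) • ι i x) (ι i y)
        ((f.out * z.1 * f.out⁻¹) • ι i y)
      rw [hS.isom, Real.dist_eq, h6] at h7
      push_cast
      linarith) (by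
      -- convex
      intro i f
      refine ⟨fun x hx y hy t ht => ?_⟩
      refine ⟨⟨hx.1.1.trans ht.1, ht.2.trans hy.1.2⟩, fun z hz => ?_⟩
      refine conv hT (hS.isom _) (p := ι i x) (q := ι i y) ?_ (hx.2 z hz) (hy.2 z hz)
      have hx1 := hx.1
      have hy1 := hy.1
      rw [hR.iso i x t hx1.1 hx1.2 (hx1.1.trans ht.1) (ht.2.trans hy1.2),
        hR.iso i t y (hx1.1.trans ht.1) (ht.2.trans hy1.2) hy1.1 hy1.2,
        hR.iso i x y hx1.1 hx1.2 hy1.1 hy1.2, abs_of_nonpos (by linarith [ht.1]),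
        abs_of_nonpos (by linarith [ht.2]), abs_of_nonpos (by linarith [ht.1, ht.2])]
      ring) (by
      -- transversality
      intro i f f' x y hxf hxf' hyf hyf' hne
      have key : ∀ x y, x ∈ M i f → x ∈ M i f' → y ∈ M i f → y ∈ M i f' → x < y → f = f' := by
        intro x y hxf hxf' hyf hyf' hlt
        have h6 := htr i x y f.out f'.out hxf.1.1 hlt hyf.1.2 hxf.2 hyf.2 hxf'.2 hyf'.2
        have h7 := QuotientGroup.eq.2 ((hCm _).2 h6)
        rwa [QuotientGroup.out_eq', QuotientGroup.out_eq'] at h7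
      rcases lt_or_gt_of_ne hne with h | h
      · exact key x y hxf hxf' hyf hyf' h
      · exact key y x hyf hyf' hxf hxf' h) (by
      -- steps
      intro σ x f h6 h7 hx
      induction f using QuotientGroup.induction_on with
      | H k =>
        have h8 := (hM (X.dc σ) k x).1 hx
        have h9 : ρ (sg σ) • (k : Γ ⧸ C) = ((ρ (sg σ) * k : Γ) : Γ ⧸ C) := rfl
        rw [h9, hM]
        have h10 : X.OK 0 σ (x, true) := (X.OK_iff 0 σ x true).2 ⟨by linarith, by linarith⟩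
        have h11 : X.OK 0 (inv σ) (X.mv σ (x, true)) := (X.OK_mv 0 σ (x, true)).2 h10
        have h12 := (X.OK_iff 0 (inv σ) (X.mv σ (x, true)).1 (X.mv σ (x, true)).2).1 h11
        have h13 : (X.mv σ (x, true)).1 = X.mvx σ x := rfl
        rw [h13] at h12
        have h14 := hX.dom (inv σ)
        refine ⟨⟨by linarith, by linarith⟩, ?_⟩
        rw [hR.band σ x h6 h7]
        exact h8.2.conj hS)
    i0 ((1 : Γ) : Γ ⧸ C) x0 y0 ((hM _ _ _).2 ⟨⟨h1, by linarith⟩, h4⟩)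
    ((hM _ _ _).2 ⟨⟨by linarith, h3⟩, h5⟩) h2
  refine ⟨F₀, E₀, hF₀, fun L X' hT' hF hE => ?_⟩
  obtain ⟨hG', e, i, he1, he2, he3, g, hg⟩ := hmain L X' hT' hF hE
  refine ⟨hG', e, i, he1, he2, he3, ?_⟩
  have hst : ∀ a : Γ, a • (g • ((1 : Γ) : Γ ⧸ C)) = g • ((1 : Γ) : Γ ⧸ C) →
      h0 * (g⁻¹ * a * g) = (g⁻¹ * a * g) * h0 := by
    intro a ha
    have h6 : ((a * g : Γ) : Γ ⧸ C) = ((g : Γ) : Γ ⧸ C) := by
      have h7 : a • (g • ((1 : Γ) : Γ ⧸ C)) = ((a * (g * 1) : Γ) : Γ ⧸ C) := rfl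
      have h8 : g • ((1 : Γ) : Γ ⧸ C) = ((g * 1 : Γ) : Γ ⧸ C) := rfl
      rw [h7, h8, mul_one] at ha
      exact ha
    have h9 := (hCm _).1 (QuotientGroup.eq.1 h6.symm)
    rw [mul_assoc g⁻¹ a g]
    exact h9
  intro γ d γ' d' hv hr hv' hr'
  have h6 := hst _ (hg γ d hv hr)
  have h7 := hst _ (hg γ' d' hv' hr')
  have h8 := hS.ct h0 _ _ hh0 h6 h7
  have h9 := congrArg (fun z => g * z * g⁻¹) h8
  have h10 : ∀ a b : Γ, g * (g⁻¹ * a * g * (g⁻¹ * b * g)) * g⁻¹ = a * b := by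
    intro a b
    group
  rwa [h10, h10] at h9

/-- an element which fixes two points of a geodesic -/
def NF (X : Sys J I ℝ) (ι : I → ℝ → T) (Γ : Type) [Group Γ] [MulAction Γ T] : Prop :=
  ∀ (z : Γ) (i : I) (x y : ℝ), X.lo i ≤ x → x < y → y ≤ X.hi i → z • ι i x = ι i x →
    z • ι i y = ι i y → z = 1

theorem csa' (hS : Small Γ T) {z k₁ k₂ : Γ} (hz : z ≠ 1)
    (h : (k₁ * z * k₁⁻¹) * (k₂ * z * k₂⁻¹) = (k₂ * z * k₂⁻¹) * (k₁ * z * k₁⁻¹)) :
    z * (k₁⁻¹ * k₂) = k₁⁻¹ * k₂ * z := by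
  apply hS.csa _ _ hz
  have h1 : k₁⁻¹ * ((k₁ * z * k₁⁻¹) * (k₂ * z * k₂⁻¹)) * k₁ =
      k₁⁻¹ * ((k₂ * z * k₂⁻¹) * (k₁ * z * k₁⁻¹)) * k₁ := by rw [h]
  have h2 : ∀ a b : Γ, k₁⁻¹ * (k₁ * a * k₁⁻¹ * b) * k₁ = a * (k₁⁻¹ * b * k₁) := by
    intro a b
    group
  have h3 : ∀ a b : Γ, k₁⁻¹ * (b * (k₁ * a * k₁⁻¹)) * k₁ = (k₁⁻¹ * b * k₁) * a := by
    intro a b
    group
  rw [h2, h3] at h1
  have h4 : k₁⁻¹ * (k₂ * z * k₂⁻¹) * k₁ = k₁⁻¹ * k₂ * z * (k₁⁻¹ * k₂)⁻¹ := by group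
  rwa [h4] at h1

/-- CASE A: a nontrivial element fixes an arc. -/
theorem caseA [Fintype J] [Fintype I] (hT : IsRT T) (hS : Small Γ T) (hX : X.Good)
    (hR : Rln X ρ ι) (hn : ¬ NF X ι Γ) :
    ∃ (F₀ E₀ : Finset ℝ), (∀ f ∈ F₀, 0 < f) ∧
      ∀ (L : ℝ →+ ℚ) (X' : Sys J I ℤ), Tp L X X' → (∀ f ∈ F₀, 0 < L f) →
        (∀ x ∈ E₀, x ∈ Lam L) →
        X'.Good ∧ ∃ e i, X'.lo i < e ∧ e < X'.hi i ∧ Odd e ∧
          ∀ γ d γ' d', X'.Valid (X'.OK 0) γ (e, d) → (X'.run γ (e, d)).1 = e →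
            X'.Valid (X'.OK 0) γ' (e, d') → (X'.run γ' (e, d')).1 = e →
            ρ (lab γ) * ρ (lab γ') = ρ (lab γ') * ρ (lab γ) := by
  unfold NF at hn
  push Not at hn
  obtain ⟨z, i, x, y, h1, h2, h3, h4, h5, h6⟩ := hn
  have hfix : ∀ (k : Γ) (p : T), Dis {(z, (0 : ℝ))} k p ↔ (k * z * k⁻¹) • p = p := by
    intro k p
    constructor
    · intro h
      have h7 := h (z, 0) rfl
      exact (dist_le_zero.1 h7).symm
    · intro h a ha
      rw [Set.mem_singleton_iff] at ha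
      subst ha
      simp only
      rw [h, dist_self]
  refine scheme hT hS hX hR h6 (G := {(z, (0 : ℝ))}) ?_ ?_ h1 h2 h3 ((hfix _ _).2 ?_)
    ((hfix _ _).2 ?_)
  · intro a ha
    rw [Set.mem_singleton_iff] at ha
    subst ha
    rfl
  · intro i x y k₁ k₂ h1 h2 h3 h7 h8 h9 h10
    rw [hfix] at h7 h8 h9 h10
    refine csa' hS h6 (hS.arc _ _ (ι i x) (ι i y) ?_ h7 h8 h9 h10)
    intro h11
    have h12 := hR.iso i x y h1 (by linarith) (by linarith) h3
    rw [h11, dist_self] at h12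
    exact h2.ne (sub_eq_zero.1 (abs_eq_zero.1 h12.symm))
  · simpa using h4
  · simpa using h5

/-- CASE C: the elements which fix arcs are trivial, finite orbits: the zipper theorem. -/
theorem caseC (hS : Small Γ T) (hX : X.Good) (hR : Rln X ρ ι) (hn : NF X ι Γ) : X.Arc ρ := by
  intro ε hε γ x hv hr
  cases γ with
  | nil => exact ⟨rfl, by simp [lab]⟩
  | cons σ γ =>
    set w := σ :: γ with hw
    set g := ρ (lab w) with hg
    have h1 := (X.OK_iff ε σ x true).1 hv.1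
    have h2 := hX.dom σ
    set i := X.dc σ with hi
    have hrun : ∀ c, |c| ≤ ε → X.lo i ≤ (X.run w (x + c, true)).1 →
        (X.run w (x + c, true)).1 ≤ X.hi i →
        g • ι i (x + c) = ι i (X.run w (x + c, true)).1 := by
      intro c hc h3 h4
      have hc' := abs_le.1 hc
      have h5 := X.valid_mono (fun σ s hs => X.OK_mono (by linarith : (0 : ℝ) ≤ ε - |c|) σ s hs)
        _ _ (X.valid_sh_margin hc w (x, true) hv)
      have h6 : sh c (x, true) = (x + c, true) := rfl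
      rw [h6] at h5
      obtain ⟨i', h7, h8, h9⟩ := word_geo hX hR w i (x + c) true (by linarith) (by linarith) h5
      have h10 : i' = i := comp_unique hX h7 h8 h3 h4
      rw [← hg, h10] at h9
      exact h9.symm
    have hsh : ∀ c, X.run w (x + c, true) = sh c (X.run w (x, true)) := by
      intro c
      rw [← X.run_sh c w (x, true)]
      rfl
    have habs : |ε| ≤ ε := by rw [abs_of_pos hε]
    have habs' : |-ε| ≤ ε := by rw [abs_neg, abs_of_pos hε]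
    cases hd : (X.run w (x, true)).2 with
    | true =>
      refine ⟨rfl, ?_⟩
      have h3 : ∀ c, (X.run w (x + c, true)).1 = x + c := by
        intro c
        rw [hsh, sh]
        simp only [hd, if_true, hr]
      have h4 := hrun ε habs (by rw [h3]; linarith) (by rw [h3]; linarith)
      have h5 := hrun (-ε) habs' (by rw [h3]; linarith) (by rw [h3]; linarith)
      rw [h3] at h4 h5
      exact hn g i (x + -ε) (x + ε) (by linarith) (by linarith) (by linarith) h5 h4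
    | false =>
      exfalso
      have h3 : ∀ c, (X.run w (x + c, true)).1 = x - c := by
        intro c
        rw [hsh, sh]
        simp only [hd, Bool.false_eq_true, if_false, hr]
      have h4 := hrun ε habs (by rw [h3]; linarith) (by rw [h3]; linarith)
      have h5 := hrun (-ε) habs' (by rw [h3]; linarith) (by rw [h3]; linarith)
      rw [h3] at h4 h5
      rw [sub_neg_eq_add] at h5
      have h6 := hS.flip g (ι i (x + ε)) (ι i (x - ε)) h4 (by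
        rw [← sub_eq_add_neg] at h5
        exact h5)
      have h7 := hR.iso i (x + ε) (x - ε) (by linarith) (by linarith) (by linarith) (by linarith)
      rw [h6, dist_self, abs_of_pos (by linarith)] at h7
      linarith

/-- arbitrarily short translations of an arc of length `2 ε` -/
theorem short_base [Fintype J] (hX : X.Good) (hR : Rln X ρ ι) {ε x : ℝ} (hε : 0 < ε)
    (hx : ¬ {y | ∃ γ, X.Valid (X.OK ε) γ (x, true) ∧ (X.run γ (x, true)).1 = y}.Finite)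
    {δ : ℝ} (hδ : 0 < δ) (hδ' : δ ≤ ε / 2) :
    ∃ (i : I) (y : ℝ) (g : Γ) (η : ℝ), η ≠ 0 ∧ |η| < δ ∧ X.lo i ≤ y - ε ∧ y + ε ≤ X.hi i ∧
      ∀ c, |c| ≤ ε / 2 → g • ι i (y + c) = ι i (y + c + η) := by
  obtain ⟨y, γ, hv, hd, hne, hlt⟩ := short_translation X hε hx hδ
  cases γ with
  | nil => exact absurd rfl hne
  | cons σ γ =>
    set w := σ :: γ with hw
    have h1 := (X.OK_iff ε σ y true).1 hv.1
    have h2 := hX.dom σ
    refine ⟨X.dc σ, y, ρ (lab w), (X.run w (y, true)).1 - y, sub_ne_zero.2 hne, hlt,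
      by linarith, by linarith, fun c hc => ?_⟩
    have hc' := abs_le.1 hc
    have hlt' := abs_lt.1 hlt
    have h5 := X.valid_mono (fun σ s hs => X.OK_mono (by linarith : (0 : ℝ) ≤ ε - |c|) σ s hs)
      _ _ (X.valid_sh_margin (hc.trans (by linarith)) w (y, true) hv)
    have h6 : sh c (y, true) = (y + c, true) := rfl
    rw [h6] at h5
    obtain ⟨i', h7, h8, h9⟩ := word_geo hX hR w (X.dc σ) (y + c) true (by linarith)
      (by linarith) h5
    have h10 : X.run w (y + c, true) = sh c (X.run w (y, true)) := by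
      rw [← X.run_sh c w (y, true)]
      rfl
    have h11 : (X.run w (y + c, true)).1 = (X.run w (y, true)).1 + c := by
      rw [h10, sh]
      simp only [hd, if_true]
    rw [h11] at h7 h8 h9
    have h12 : i' = X.dc σ := comp_unique hX h7 h8 (by linarith) (by linarith)
    rw [h12] at h9
    rw [← h9]
    congr 1
    ring

/-- an arc with arbitrarily short translations -/
theorem short_arc [Fintype J] [Fintype I] (hX : X.Good) (hR : Rln X ρ ι) (hinf : ¬ X.FinOrb) :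
    ∃ (i : I) (a b : ℝ), a < b ∧ X.lo i ≤ a ∧ b ≤ X.hi i ∧ ∀ δ : ℝ, 0 < δ →
      ∃ (g : Γ) (η : ℝ), η ≠ 0 ∧ |η| < δ ∧ ∀ t, a ≤ t → t ≤ b →
        X.lo i ≤ t + η ∧ t + η ≤ X.hi i ∧ g • ι i t = ι i (t + η) := by
  classical
  unfold Sys.FinOrb at hinf
  push Not at hinf
  obtain ⟨ε, hε, x, hx⟩ := hinf
  have hx' : ¬ {y | ∃ γ, X.Valid (X.OK ε) γ (x, true) ∧ (X.run γ (x, true)).1 = y}.Finite := hx
  set κ : ℝ := ε / 4 with hκ
  have hκ0 : 0 < κ := by positivity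
  set S : Finset (Σ _ : I, ℤ) :=
    (univ : Finset I).sigma (fun i => Finset.Icc ⌊X.lo i / κ⌋ ⌊X.hi i / κ⌋) with hS
  set P : (Σ _ : I, ℤ) → ℝ → Prop := fun z δ => ∃ (g : Γ) (η : ℝ), η ≠ 0 ∧ |η| < δ ∧
    X.lo z.1 ≤ z.2 * κ ∧ (z.2 + 1) * κ ≤ X.hi z.1 ∧ ∀ t, z.2 * κ ≤ t → t ≤ (z.2 + 1) * κ →
      X.lo z.1 ≤ t + η ∧ t + η ≤ X.hi z.1 ∧ g • ι z.1 t = ι z.1 (t + η) with hP
  have hex : ∀ δ, 0 < δ → δ ≤ ε / 2 → ∃ z ∈ S, P z δ := by
    intro δ hδ hδ'
    obtain ⟨i, y, g, η, h1, h2, h3, h4, h5⟩ := short_base hX hR hε hx' hδ hδ'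
    have h2' := abs_lt.1 h2
    have hf1 : (⌊y / κ⌋ : ℝ) * κ ≤ y := by
      have := Int.floor_le (y / κ)
      rwa [le_div_iff₀ hκ0] at this
    have hf2 : y < ((⌊y / κ⌋ : ℝ) + 1) * κ := by
      have := Int.lt_floor_add_one (y / κ)
      rwa [div_lt_iff₀ hκ0] at this
    have hf3 : ((⌊y / κ⌋ : ℝ) + 1) * κ = (⌊y / κ⌋ : ℝ) * κ + κ := by ring
    refine ⟨⟨i, ⌊y / κ⌋⟩, ?_, g, η, h1, h2, ?_, ?_, ?_⟩
    · rw [hS, mem_sigma]
      refine ⟨mem_univ _, Finset.mem_Icc.2 ⟨?_, ?_⟩⟩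
      · exact Int.floor_le_floor (div_le_div_of_nonneg_right (by linarith) hκ0.le)
      · exact Int.floor_le_floor (div_le_div_of_nonneg_right (by linarith) hκ0.le)
    · simp only
      linarith
    · simp only
      linarith
    · simp only
      intro t ht1 ht2
      refine ⟨by linarith, by linarith, ?_⟩
      have h6 := h5 (t - y) (abs_le.2 ⟨by linarith, by linarith⟩)
      rwa [add_sub_cancel] at h6
  by_contra hcon
  push Not at hcon
  have hno : ∀ z ∈ S, ∃ δ, 0 < δ ∧ ¬ P z δ := by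
    intro z hz
    by_contra h1
    push Not at h1
    obtain ⟨g, η, -, -, h2, h3, -⟩ := h1 1 one_pos
    have h4 : (z.2 : ℝ) * κ < (z.2 + 1) * κ := by nlinarith
    obtain ⟨δ, hδ, h5⟩ := hcon z.1 (z.2 * κ) ((z.2 + 1) * κ) h4 h2 h3
    obtain ⟨g, η, h6, h7, -, -, h8⟩ := h1 δ hδ
    obtain ⟨t, h9, h10, h11⟩ := h5 g η h6 h7
    have h12 := h8 t h9 h10
    exact h11 h12.1 h12.2.1 h12.2.2
  choose! δ hδ hδP using hno
  set D : Finset ℝ := insert (ε / 2) (S.image δ) with hD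
  have hDne : D.Nonempty := ⟨ε / 2, mem_insert_self _ _⟩
  have hmin : 0 < D.min' hDne := by
    suffices h : ∀ d ∈ D, 0 < d from h _ (D.min'_mem hDne)
    intro d h1
    rw [hD, mem_insert, mem_image] at h1
    rcases h1 with h1 | ⟨z, hz, h1⟩
    · rw [h1]; positivity
    · rw [← h1]; exact hδ z hz
  obtain ⟨z, hz, hPz⟩ := hex (D.min' hDne) hmin (min'_le _ _ (mem_insert_self _ _))
  refine hδP z hz ?_
  obtain ⟨g, η, h1, h2, h3⟩ := hPz
  exact ⟨g, η, h1, h2.trans_le (min'_le _ _ (mem_insert_of_mem (mem_image_of_mem _ hz))), h3⟩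

/-- CASE B: no nontrivial element fixes an arc, infinite orbits. -/
theorem caseB [Fintype J] [Fintype I] (hT : IsRT T) (hS : Small Γ T) (hX : X.Good)
    (hR : Rln X ρ ι) (hn : NF X ι Γ) (hinf : ¬ X.FinOrb) :
    ∃ (F₀ E₀ : Finset ℝ), (∀ f ∈ F₀, 0 < f) ∧
      ∀ (L : ℝ →+ ℚ) (X' : Sys J I ℤ), Tp L X X' → (∀ f ∈ F₀, 0 < L f) →
        (∀ x ∈ E₀, x ∈ Lam L) →
        X'.Good ∧ ∃ e i, X'.lo i < e ∧ e < X'.hi i ∧ Odd e ∧
          ∀ γ d γ' d', X'.Valid (X'.OK 0) γ (e, d) → (X'.run γ (e, d)).1 = e →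
            X'.Valid (X'.OK 0) γ' (e, d') → (X'.run γ' (e, d')).1 = e →
            ρ (lab γ) * ρ (lab γ') = ρ (lab γ') * ρ (lab γ) := by
  obtain ⟨i, a, b, hab, hlo, hhi, hsh⟩ := short_arc hX hR hinf
  set G : Set (Γ × ℝ) := {z | ∃ η : ℝ, η ≠ 0 ∧ |η| < (b - a) / 8 ∧ z.2 = |η| ∧
    ∀ t, a ≤ t → t ≤ b → X.lo i ≤ t + η ∧ t + η ≤ X.hi i ∧ z.1 • ι i t = ι i (t + η)} with hG
  have hne : ∀ z ∈ G, z.1 ≠ 1 := by
    rintro z ⟨η, h1, h2, h3, h4⟩ h5
    obtain ⟨h6, h7, h8⟩ := h4 a le_rfl hab.le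
    rw [h5, one_smul] at h8
    have h9 := hR.iso i a (a + η) hlo (by linarith) h6 h7
    rw [← h8, dist_self] at h9
    apply h1
    have h10 := abs_eq_zero.1 h9.symm
    linarith
  have hcomm : ∀ z ∈ G, ∀ z' ∈ G, z.1 * z'.1 = z'.1 * z.1 := by
    rintro z ⟨η, h1, h2, h3, h4⟩ z' ⟨η', h1', h2', h3', h4'⟩
    have k := abs_lt.1 h2
    have k' := abs_lt.1 h2'
    have h5 : ∀ t, a + |η| + |η'| ≤ t → t ≤ b - |η| - |η'| →
        (z.1 * z'.1) • ι i t = (z'.1 * z.1) • ι i t := by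
      intro t ht1 ht2
      have a1 := le_abs_self η
      have a2 := neg_abs_le η
      have a3 := le_abs_self η'
      have a4 := neg_abs_le η'
      have a5 := abs_nonneg η
      have a6 := abs_nonneg η'
      rw [mul_smul, mul_smul, (h4' t (by linarith) (by linarith)).2.2,
        (h4 t (by linarith) (by linarith)).2.2, (h4 (t + η') (by linarith) (by linarith)).2.2,
        (h4' (t + η) (by linarith) (by linarith)).2.2]
      congr 1
      ring
    have h6 : ∀ t, a + |η| + |η'| ≤ t → t ≤ b - |η| - |η'| →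
        ((z'.1 * z.1)⁻¹ * (z.1 * z'.1)) • ι i t = ι i t := by
      intro t ht1 ht2
      rw [mul_smul, h5 t ht1 ht2, inv_smul_smul]
    have h7 := hn _ i (a + |η| + |η'|) (b - |η| - |η'|)
      (by linarith [abs_nonneg η, abs_nonneg η']) (by linarith)
      (by linarith [abs_nonneg η, abs_nonneg η']) (h6 _ le_rfl (by linarith))
      (h6 _ (by linarith) le_rfl)
    exact (inv_mul_eq_one.1 h7).symm
  have hmem : ∀ δ : ℝ, 0 < δ → ∃ z ∈ G, z.2 < δ := by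
    intro δ hδ
    obtain ⟨g, η, h1, h2, h3⟩ := hsh (min δ ((b - a) / 8)) (lt_min hδ (by linarith))
    have h2' := lt_min_iff.1 h2
    exact ⟨(g, |η|), ⟨η, h1, h2'.2, rfl, h3⟩, h2'.1⟩
  obtain ⟨z0, hz0, -⟩ := hmem 1 one_pos
  have hdis : ∀ t, a ≤ t → t ≤ b → Dis G 1 (ι i t) := by
    rintro t h1 h2 z ⟨η, h3, h4, h5, h6⟩
    obtain ⟨h7, h8, h9⟩ := h6 t h1 h2
    rw [one_mul, inv_one, mul_one, h9, hR.iso i t (t + η) (by linarith) (by linarith) h7 h8, h5]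
    have h10 : t - (t + η) = -η := by ring
    rw [h10, abs_neg]
  refine scheme hT hS hX hR (hne z0 hz0) (G := G) (fun z hz => hcomm z0 hz0 z hz) ?_ hlo hab hhi
    (hdis a le_rfl hab.le) (hdis b hab.le le_rfl)
  intro j x y k₁ k₂ hx hxy hy d1 d2 d3 d4
  obtain ⟨z, hz, hzlt⟩ := hmem ((y - x) / 8) (by linarith)
  have hiso : ∀ a b, x ≤ a → a ≤ y → x ≤ b → b ≤ y → dist (ι j a) (ι j b) = |a - b| :=
    fun a b h1 h2 h3 h4 => hR.iso j a b (by linarith) (by linarith) (by linarith) (by linarith)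
  obtain ⟨τ₁, ht1, hτ₁⟩ := transl hT (hS.isom (k₁ * z.1 * k₁⁻¹)) hiso (d1 z hz) (d2 z hz)
  obtain ⟨τ₂, ht2, hτ₂⟩ := transl hT (hS.isom (k₂ * z.1 * k₂⁻¹)) hiso (d3 z hz) (d4 z hz)
  have ht1' := abs_le.1 ht1
  have ht2' := abs_le.1 ht2
  have hη : 0 ≤ z.2 := (abs_nonneg _).trans ht1
  have h8' := csa' hS (k₁ := k₁) (k₂ := k₂) (hne z hz)
  generalize k₁ * z.1 * k₁⁻¹ = A at *
  generalize k₂ * z.1 * k₂⁻¹ = B at *
  have h5 : ∀ t, x + 2 * z.2 ≤ t → t ≤ y - 2 * z.2 → (A * B) • ι j t = (B * A) • ι j t := by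
    intro t h1 h2
    rw [mul_smul, mul_smul, hτ₂ t (by linarith) (by linarith), hτ₁ t (by linarith) (by linarith),
      hτ₁ (t + τ₂) (by linarith) (by linarith), hτ₂ (t + τ₁) (by linarith) (by linarith)]
    congr 1
    ring
  have h6 : ∀ t, x + 2 * z.2 ≤ t → t ≤ y - 2 * z.2 → ((B * A)⁻¹ * (A * B)) • ι j t = ι j t := by
    intro t h1 h2
    rw [mul_smul, h5 t h1 h2, inv_smul_smul]
  have h7 := hn _ j (x + 2 * z.2) (y - 2 * z.2) (by linarith) (by linarith) (by linarith)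
    (h6 _ le_rfl (by linarith)) (h6 _ (by linarith) le_rfl)
  have h8 := h8' (inv_mul_eq_one.1 h7).symm
  exact (hS.ct z.1 z0.1 _ (hne z hz) (hcomm z hz z0 hz0) h8)

/-- THE COMBINATORIAL FORM OF THEOREM R. -/
theorem s_Comb : S_Comb := by
  intro J I Γ T _ _ _ _ _ _ X ρ ι hT hS hX hR
  classical
  by_cases hn : NF X ι Γ
  · by_cases hfin : X.FinOrb
    · -- CASE C
      obtain ⟨F₀, E₀, W, h1, h2, h3⟩ := zipper X hX ρ (caseC hS hX hR hn) hfin
      refine ⟨F₀, E₀, W, h1, h2, fun L X' hTp hF hE => ?_⟩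
      obtain ⟨h4, ⟨e, i, h5, h6, h7, c, h8⟩, h9⟩ := h3 L X' hTp hF hE
      refine ⟨h4, ⟨e, i, h5, h6, h7, ?_⟩, h9⟩
      intro γ d γ' d' hv hr hv' hr'
      obtain ⟨m, hm⟩ := h8 γ d hv hr
      obtain ⟨n, hn'⟩ := h8 γ' d' hv' hr'
      have hker : Subgroup.normalClosure (W : Set (FreeGroup J)) ≤ ρ.ker :=
        Subgroup.normalClosure_le_normal fun w hw => h2 w hw
      have h10 : (QuotientGroup.mk' (Subgroup.normalClosure (W : Set (FreeGroup J))))
          (lab γ * lab γ') =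
          (QuotientGroup.mk' (Subgroup.normalClosure (W : Set (FreeGroup J))))
          (lab γ' * lab γ) := by
        rw [map_mul, map_mul, ← hm, ← hn']
        simp only
        rw [← zpow_add, ← zpow_add, add_comm]
      have h11 := hker (QuotientGroup.eq.1 h10)
      rw [MonoidHom.mem_ker, map_mul, map_inv, inv_mul_eq_one] at h11
      rwa [map_mul, map_mul] at h11
    · -- CASE B
      obtain ⟨F₀, E₀, h1, h2⟩ := caseB hT hS hX hR hn hfin
      exact ⟨F₀, E₀, ∅, h1, by simp, fun L X' hTp hF hE =>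
        ⟨(h2 L X' hTp hF hE).1, (h2 L X' hTp hF hE).2, by simp⟩⟩
  · -- CASE A
    obtain ⟨F₀, E₀, h1, h2⟩ := caseA hT hS hX hR hn
    exact ⟨F₀, E₀, ∅, h1, by simp, fun L X' hTp hF hE =>
      ⟨(h2 L X' hTp hF hE).1, (h2 L X' hTp hF hE).2, by simp⟩⟩

end Pool.Agent.FrR
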