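import Pool.Agent.Lib.MP_305fdd_al.Fr.Z.Exist

/-!
# MP_305fdd_al, Theorem R, Case I: transverse families of lines, Lemma F

`Fam X ρ F`: a `Γ`-invariant transverse family `F` of lines, seen in the system `X`: the arc
`[p (i, f), q (i, f)]` is the intersection of the line `f` with the component `i` (present if
`p < q`); different lines overlap in at most a point; bands map arcs into arcs.

Lemma F: the set of the arcs which are joined to a given arc by bands is finite.
-/

set_option autoImplicit false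
set_option linter.unusedSectionVars false
set_option linter.unusedVariables false
set_option linter.unnecessarySeqFocus false

open Finset

namespace Pool.Agent.FrZ

variable {J I Γ : Type} [Group Γ]

/-- a transverse family of lines, seen in the system -/
structure Fam (X : Sys J I ℝ) (ρ : FreeGroup J →* Γ) (F : Type) [MulAction Γ F] where
  p : I × F → ℝ
  q : I × F → ℝ
  lo : ∀ c, p c < q c → X.lo c.1 ≤ p c ∧ q c ≤ X.hi c.1
  tr : ∀ i f f', f ≠ f' → p (i, f) < q (i, f) → p (i, f') < q (i, f') →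
    q (i, f) ≤ p (i, f') ∨ q (i, f') ≤ p (i, f)
  st : ∀ σ f x, p (X.dc σ, f) < x → x < q (X.dc σ, f) → X.dl σ ≤ x → x ≤ X.dl σ + X.l σ.1 →
    p (X.dc (inv σ), ρ (sg σ) • f) ≤ X.mvx σ x ∧ X.mvx σ x ≤ q (X.dc (inv σ), ρ (sg σ) • f)

/-- The family belonging to subsets `M f` of the line: the intersections with the components are
convex, different ones have at most one common point, and the steps map `M f` into `M (ρ s • f)`. -/
noncomputable def Fam.ofSets {X : Sys J I ℝ} (hX : X.Good) {ρ : FreeGroup J →* Γ} {F : Type}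
    [MulAction Γ F] (M : F → Set ℝ)
    (hconv : ∀ f i, (M f ∩ Set.Icc (X.lo i) (X.hi i)).OrdConnected)
    (htr : ∀ f f' i, f ≠ f' → (M f ∩ M f' ∩ Set.Icc (X.lo i) (X.hi i)).Subsingleton)
    (hst : ∀ f σ x, x ∈ M f → X.dl σ ≤ x → x ≤ X.dl σ + X.l σ.1 →
      X.mvx σ x ∈ M (ρ (sg σ) • f)) : Fam X ρ F := by
  classical
  -- the set of the arc
  let S : I × F → Set ℝ := fun c => M c.2 ∩ Set.Icc (X.lo c.1) (X.hi c.1)
  have hbb : ∀ c, BddBelow (S c) := fun c => ⟨X.lo c.1, fun x hx => hx.2.1⟩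
  have hba : ∀ c, BddAbove (S c) := fun c => ⟨X.hi c.1, fun x hx => hx.2.2⟩
  have hne : ∀ c, sInf (S c) < sSup (S c) → (S c).Nonempty := by
    intro c h
    rw [Set.nonempty_iff_ne_empty]
    intro h'
    rw [h'] at h
    simp at h
  have hin : ∀ c x, sInf (S c) < x → x < sSup (S c) → x ∈ S c := by
    intro c x h1 h2
    have hn := hne c (h1.trans h2)
    obtain ⟨y, hy, hyx⟩ := exists_lt_of_csInf_lt hn h1
    obtain ⟨z, hz, hxz⟩ := exists_lt_of_lt_csSup hn h2
    exact (hconv c.2 c.1).out hy hz ⟨hyx.le, hxz.le⟩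
  refine { p := fun c => sInf (S c), q := fun c => sSup (S c), lo := ?_, tr := ?_, st := ?_ }
  · intro c h
    have hn := hne c h
    exact ⟨le_csInf hn fun x hx => hx.2.1, csSup_le hn fun x hx => hx.2.2⟩
  · intro i f f' hff h1 h2
    by_contra hcon
    push Not at hcon
    obtain ⟨h3, h4⟩ := hcon
    have h5 : max (sInf (S (i, f))) (sInf (S (i, f'))) <
        min (sSup (S (i, f))) (sSup (S (i, f'))) := by
      rw [lt_min_iff, max_lt_iff, max_lt_iff]
      exact ⟨⟨h1, h3⟩, ⟨h4, h2⟩⟩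
    obtain ⟨x, hx1, hx2⟩ := exists_between h5
    obtain ⟨y, hy1, hy2⟩ := exists_between hx2
    have hx1' := max_lt_iff.1 hx1
    have hy2' := lt_min_iff.1 hy2
    have hx2' := lt_min_iff.1 hx2
    have hxf := hin (i, f) x hx1'.1 hx2'.1
    have hxf' := hin (i, f') x hx1'.2 hx2'.2
    have hyf := hin (i, f) y (hx1'.1.trans hy1) hy2'.1
    have hyf' := hin (i, f') y (hx1'.2.trans hy1) hy2'.2
    have := htr f f' i hff ⟨⟨hxf.1, hxf'.1⟩, hxf.2⟩ ⟨⟨hyf.1, hyf'.1⟩, hyf.2⟩
    exact absurd this hy1.ne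
  · intro σ f x h1 h2 h3 h4
    have hx := hin _ x h1 h2
    have h5 : X.mvx σ x ∈ S (X.dc (inv σ), ρ (sg σ) • f) := by
      refine ⟨hst f σ x hx.1 h3 h4, ?_⟩
      have h6 : X.OK 0 (inv σ) (X.mv σ (x, true)) := by
        rw [X.OK_mv, X.OK_iff]
        exact ⟨by linarith, by linarith⟩
      have h7 : X.OK 0 (inv σ) ((X.mv σ (x, true)).1, (X.mv σ (x, true)).2) := h6
      rw [X.OK_iff] at h7
      have h8 := hX.dom (inv σ)
      have h9 : (X.mv σ (x, true)).1 = X.mvx σ x := rfl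
      rw [h9] at h7
      exact ⟨by linarith [h7.1, h8.1], by linarith [h7.2, h8.2]⟩
    exact ⟨csInf_le (hbb _) h5, le_csSup (hba _) h5⟩

namespace Fam

variable {X : Sys J I ℝ} {ρ : FreeGroup J →* Γ} {F : Type} [MulAction Γ F] (A : Fam X ρ F)

/-- the left end of the overlap of the arc and the domain of a step -/
def u (σ : J × Bool) (c : I × F) : ℝ := max (A.p c) (X.dl σ)

/-- the right end of the overlap of the arc and the domain of a step -/
def v (σ : J × Bool) (c : I × F) : ℝ := min (A.q c) (X.dl σ + X.l σ.1)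

/-- the arc to which a step maps an arc -/
def nx (X : Sys J I ℝ) (ρ : FreeGroup J →* Γ) {F : Type} [MulAction Γ F] (σ : J × Bool)
    (c : I × F) : I × F := (X.dc (inv σ), ρ (sg σ) • c.2)

theorem _root_.Pool.Agent.FrZ.Sys.continuous_mvx (X : Sys J I ℝ) (σ : J × Bool) :
    Continuous (X.mvx σ) := by
  unfold Sys.mvx
  split_ifs
  · exact continuous_const.add (continuous_const.sub continuous_id)
  · exact continuous_const.add (continuous_id.sub continuous_const)

theorem uv (σ : J × Bool) (c : I × F) (hc : X.dc σ = c.1) (h : A.u σ c < A.v σ c) :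
    ∀ x, A.u σ c ≤ x → x ≤ A.v σ c →
      A.p (nx X ρ σ c) ≤ X.mvx σ x ∧ X.mvx σ x ≤ A.q (nx X ρ σ c) := by
  obtain ⟨i, f⟩ := c
  simp only at hc
  subst hc
  intro x hx1 hx2
  have h1 : Set.Ioo (A.u σ (X.dc σ, f)) (A.v σ (X.dc σ, f)) ⊆
      X.mvx σ ⁻¹' Set.Icc (A.p (nx X ρ σ (X.dc σ, f))) (A.q (nx X ρ σ (X.dc σ, f))) := by
    rintro y ⟨hy1, hy2⟩
    have hy1' := max_lt_iff.1 hy1
    have hy2' := lt_min_iff.1 hy2
    exact A.st σ f y hy1'.1 hy2'.1 hy1'.2.le hy2'.2.le
  have h2 := closure_minimal h1 (isClosed_Icc.preimage (X.continuous_mvx σ))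
  rw [closure_Ioo h.ne] at h2
  exact h2 ⟨hx1, hx2⟩

/-- the arcs `c` and `nx σ c` are neighbours -/
def Adj (A : Fam X ρ F) (c c' : I × F) : Prop :=
  ∃ σ, X.dc σ = c.1 ∧ A.u σ c < A.v σ c ∧ c' = nx X ρ σ c

theorem mvx_abs (X : Sys J I ℝ) (σ : J × Bool) (x y : ℝ) :
    |X.mvx σ x - X.mvx σ y| = |x - y| := by
  unfold Sys.mvx
  split_ifs
  · have : X.dl (inv σ) + (X.dl σ + X.l σ.1 - x) - (X.dl (inv σ) + (X.dl σ + X.l σ.1 - y))
        = -(x - y) := by ring
    rw [this, abs_neg]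
  · congr 1
    ring

theorem len_le {σ : J × Bool} {c : I × F} (hc : X.dc σ = c.1) (h : A.u σ c < A.v σ c) :
    A.v σ c - A.u σ c ≤ A.q (nx X ρ σ c) - A.p (nx X ρ σ c) := by
  obtain ⟨h1, h2⟩ := A.uv σ c hc h _ le_rfl h.le
  obtain ⟨h3, h4⟩ := A.uv σ c hc h _ h.le le_rfl
  have h5 := mvx_abs X σ (A.v σ c) (A.u σ c)
  rw [abs_of_pos (sub_pos.2 h)] at h5
  rw [← h5]
  rw [abs_le]
  constructor <;> linarith

theorem nx_inv (σ : J × Bool) (c : I × F) (hc : X.dc σ = c.1) :
    nx X ρ (inv σ) (nx X ρ σ c) = c := by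
  obtain ⟨i, f⟩ := c
  simp only at hc
  subst hc
  simp [nx, sg_inv]

theorem Adj.present {c c' : I × F} (h : A.Adj c c') : A.p c' < A.q c' := by
  obtain ⟨σ, h1, h2, rfl⟩ := h
  have := A.len_le h1 h2
  linarith

theorem Adj.present' {c c' : I × F} (h : A.Adj c c') : A.p c < A.q c := by
  obtain ⟨σ, h1, h2, rfl⟩ := h
  have h3 := max_lt_iff.1 h2
  exact (lt_min_iff.1 h3.1).1

/-- reversed overlaps -/
theorem uv_inv {σ : J × Bool} {c : I × F} (hc : X.dc σ = c.1) (h : A.u σ c < A.v σ c) :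
    A.u (inv σ) (nx X ρ σ c) < A.v (inv σ) (nx X ρ σ c) := by
  have key : ∀ x, A.u σ c ≤ x → x ≤ A.v σ c →
      A.u (inv σ) (nx X ρ σ c) ≤ X.mvx σ x ∧ X.mvx σ x ≤ A.v (inv σ) (nx X ρ σ c) := by
    intro x h1 h2
    obtain ⟨h3, h4⟩ := A.uv σ c hc h x h1 h2
    have h5 := (max_le_iff.1 h1).2
    have h6 := (le_min_iff.1 h2).2
    have h7 : X.OK 0 (inv σ) (X.mv σ (x, true)) := by
      rw [X.OK_mv, X.OK_iff]
      exact ⟨by linarith, by linarith⟩
    have h8 : X.OK 0 (inv σ) (X.mvx σ x, (X.mv σ (x, true)).2) := h7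
    rw [X.OK_iff] at h8
    exact ⟨max_le h3 (by linarith [h8.1]), le_min h4 (by linarith [h8.2])⟩
  obtain ⟨h1, h2⟩ := key _ le_rfl h.le
  obtain ⟨h3, h4⟩ := key _ h.le le_rfl
  have h5 : X.mvx σ (A.u σ c) ≠ X.mvx σ (A.v σ c) := by
    intro h6
    have h7 := congrArg (X.mvx (inv σ)) h6
    rw [X.mvx_inv, X.mvx_inv] at h7
    exact h.ne h7
  rcases lt_or_gt_of_ne h5 with h6 | h6
  · linarith
  · linarith

theorem Adj.symm {c c' : I × F} (h : A.Adj c c') : A.Adj c' c := by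
  obtain ⟨σ, h1, h2, rfl⟩ := h
  exact ⟨inv σ, rfl, A.uv_inv h1 h2, (nx_inv σ c h1).symm⟩

/-- a point which is an end of a component or of the domain of a band -/
def Special (X : Sys J I ℝ) (x : ℝ) : Prop :=
  (∃ i, x = X.lo i ∨ x = X.hi i) ∨ ∃ σ : J × Bool, x = X.dl σ ∨ x = X.dl σ + X.l σ.1

theorem special_finite [Finite J] [Finite I] : {x | Special X x}.Finite := by
  have h : {x | Special X x} ⊆ (Set.range X.lo ∪ Set.range X.hi) ∪
      (Set.range X.dl ∪ Set.range (fun σ : J × Bool => X.dl σ + X.l σ.1)) := by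
    rintro x (⟨i, rfl | rfl⟩ | ⟨σ, rfl | rfl⟩)
    · exact Or.inl (Or.inl ⟨i, rfl⟩)
    · exact Or.inl (Or.inr ⟨i, rfl⟩)
    · exact Or.inr (Or.inl ⟨σ, rfl⟩)
    · exact Or.inr (Or.inr ⟨σ, rfl⟩)
  exact (((Set.finite_range _).union (Set.finite_range _)).union
    ((Set.finite_range _).union (Set.finite_range _))).subset h

/-- the arc contains no special point -/
def Reg (c : I × F) : Prop := ∀ x, Special X x → ¬ (A.p c ≤ x ∧ x ≤ A.q c)

theorem irr_finite [Finite J] [Finite I] :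
    {c : I × F | A.p c < A.q c ∧ ¬ A.Reg c}.Finite := by
  have h1 : {c : I × F | A.p c < A.q c ∧ ¬ A.Reg c} ⊆
      ⋃ x ∈ {x | Special X x}, ⋃ i : I,
        ((fun f => (i, f)) '' {f | A.p (i, f) ≤ x ∧ x < A.q (i, f)} ∪
          (fun f => (i, f)) '' {f | A.p (i, f) < x ∧ x ≤ A.q (i, f)}) := by
    rintro ⟨i, f⟩ ⟨h1, h2⟩
    unfold Reg at h2
    push Not at h2
    obtain ⟨x, hx, h3, h4⟩ := h2
    simp only [Set.mem_iUnion]
    refine ⟨x, hx, i, ?_⟩
    rcases h4.lt_or_eq with h5 | h5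
    · left
      exact ⟨f, ⟨h3, h5⟩, rfl⟩
    · right
      exact ⟨f, ⟨by rw [h5]; exact h1, h5.le⟩, rfl⟩
  refine (Set.Finite.biUnion special_finite fun x _ => Set.finite_iUnion fun i => ?_).subset h1
  refine (Set.Finite.image _ ?_).union (Set.Finite.image _ ?_)
  · apply Set.Subsingleton.finite
    rintro f ⟨hf1, hf2⟩ f' ⟨hf1', hf2'⟩
    by_contra hne
    rcases A.tr i f f' hne (hf1.trans_lt hf2) (hf1'.trans_lt hf2') with h | h <;> linarith
  · apply Set.Subsingleton.finite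
    rintro f ⟨hf1, hf2⟩ f' ⟨hf1', hf2'⟩
    by_contra hne
    rcases A.tr i f f' hne (hf1.trans_le hf2) (hf1'.trans_le hf2') with h | h <;> linarith

theorem long_finite [Finite I] {δ : ℝ} (hδ : 0 < δ) :
    {c : I × F | δ ≤ A.q c - A.p c}.Finite := by
  have h1 : {c : I × F | δ ≤ A.q c - A.p c} ⊆
      ⋃ i : I, (fun f => (i, f)) '' {f | δ ≤ A.q (i, f) - A.p (i, f)} := by
    rintro ⟨i, f⟩ h
    simp only [Set.mem_iUnion]
    exact ⟨i, f, h, rfl⟩
  refine (Set.finite_iUnion fun i => Set.Finite.image _ ?_).subset h1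
  refine Set.Finite.of_injOn (f := fun f => ⌊A.p (i, f) / δ⌋)
    (t := Set.Icc ⌊X.lo i / δ⌋ ⌊X.hi i / δ⌋) ?_ ?_ (Set.finite_Icc _ _)
  · intro f hf
    simp only [Set.mem_ofPred_eq] at hf
    have h2 := A.lo (i, f) (by linarith)
    simp only at h2
    exact ⟨Int.floor_le_floor (div_le_div_of_nonneg_right h2.1 hδ.le),
      Int.floor_le_floor (div_le_div_of_nonneg_right (by linarith [h2.2]) hδ.le)⟩
  · intro f hf f' hf' heq
    simp only [Set.mem_ofPred_eq] at hf hf'
    simp only at heq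
    have h6 := Int.abs_sub_lt_one_of_floor_eq_floor heq
    rw [← sub_div, abs_div, abs_of_pos hδ, div_lt_one hδ, abs_lt] at h6
    by_contra hne
    rcases A.tr i f f' hne (by linarith) (by linarith) with h | h <;> linarith [h6.1, h6.2]

/-- a band through a regular arc contains it -/
theorem reg_uv {c : I × F} (hr : A.Reg c) {σ : J × Bool} (h : A.u σ c < A.v σ c) :
    A.u σ c = A.p c ∧ A.v σ c = A.q c := by
  have h1 := hr (X.dl σ) (Or.inr ⟨σ, Or.inl rfl⟩)
  have h2 := hr (X.dl σ + X.l σ.1) (Or.inr ⟨σ, Or.inr rfl⟩)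
  have h3 := max_lt_iff.1 h
  have h4 := lt_min_iff.1 h3.1
  have h5 := lt_min_iff.1 h3.2
  push Not at h1 h2
  have h6 : X.dl σ ≤ A.p c := by
    by_contra h7
    push Not at h7
    exact absurd h5.1 (not_lt.2 (h1 h7.le).le)
  have h7 : A.q c ≤ X.dl σ + X.l σ.1 := (h2 h4.2.le).le
  exact ⟨max_eq_left h6, min_eq_left h7⟩

/-- the connected component of an arc -/
def Comp (A : Fam X ρ F) (c₀ : I × F) : Set (I × F) := {c | Relation.ReflTransGen A.Adj c₀ c}

/-- LEMMA F. -/
theorem comp_finite [Finite J] [Finite I] {c₀ : I × F} (hc₀ : A.p c₀ < A.q c₀) :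
    (A.Comp c₀).Finite := by
  classical
  -- irregular arcs and their neighbours
  have hS : ({c : I × F | A.p c < A.q c ∧ ¬ A.Reg c} ∪
      (⋃ c ∈ {c : I × F | A.p c < A.q c ∧ ¬ A.Reg c}, Set.range fun σ : J × Bool =>
        nx X ρ σ c) ∪ {c₀}).Finite := by
    refine (A.irr_finite.union (Set.Finite.biUnion A.irr_finite fun c _ =>
      Set.finite_range _)).union (Set.finite_singleton _)
  set S := ({c : I × F | A.p c < A.q c ∧ ¬ A.Reg c} ∪
      (⋃ c ∈ {c : I × F | A.p c < A.q c ∧ ¬ A.Reg c}, Set.range fun σ : J × Bool =>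
        nx X ρ σ c) ∪ {c₀}) with hSdef
  -- a lower bound for the lengths of the present arcs in `S`
  obtain ⟨δ, hδ, hδS⟩ : ∃ δ : ℝ, 0 < δ ∧ ∀ c ∈ S, A.p c < A.q c → δ ≤ A.q c - A.p c := by
    have key : ∀ T : Finset (I × F), ∃ δ : ℝ, 0 < δ ∧
        ∀ c ∈ T, A.p c < A.q c → δ ≤ A.q c - A.p c := by
      intro T
      induction T using Finset.induction_on with
      | empty => exact ⟨1, one_pos, fun c hc => absurd hc (notMem_empty c)⟩
      | insert a T ha ih =>
        obtain ⟨δ, h1, h2⟩ := ih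
        by_cases h : A.p a < A.q a
        · refine ⟨min δ (A.q a - A.p a), lt_min h1 (by linarith), ?_⟩
          intro c hc hpc
          rcases mem_insert.1 hc with rfl | hc
          · exact min_le_right _ _
          · exact (min_le_left _ _).trans (h2 c hc hpc)
        · refine ⟨δ, h1, ?_⟩
          intro c hc hpc
          rcases mem_insert.1 hc with rfl | hc
          · exact absurd hpc h
          · exact h2 c hc hpc
    obtain ⟨δ, h1, h2⟩ := key hS.toFinset
    exact ⟨δ, h1, fun c hc => h2 c (hS.mem_toFinset.2 hc)⟩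
  refine (A.long_finite hδ).subset ?_
  intro c hc
  -- all arcs of the component are long
  have key : ∀ c, Relation.ReflTransGen A.Adj c₀ c → A.p c < A.q c ∧ δ ≤ A.q c - A.p c := by
    intro c hc
    induction hc with
    | refl =>
      exact ⟨hc₀, hδS _ (by rw [hSdef]; right; rfl) hc₀⟩
    | @tail b c hb hbc ih =>
      have hpc := Adj.present A hbc
      refine ⟨hpc, ?_⟩
      by_cases hrc : A.Reg c
      · by_cases hrb : A.Reg b
        · have hcb := Adj.symm A hbc
          obtain ⟨σ, h1, h2, h3⟩ := hbc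
          obtain ⟨τ, t1, t2, t3⟩ := hcb
          have h4 := A.len_le h1 h2
          obtain ⟨h5, h6⟩ := A.reg_uv hrb h2
          rw [h5, h6, ← h3] at h4
          linarith [ih.2]
        · refine hδS c ?_ hpc
          rw [hSdef]
          left; right
          obtain ⟨σ, h1, h2, h3⟩ := hbc
          simp only [Set.mem_iUnion]
          exact ⟨b, ⟨ih.1, hrb⟩, σ, h3.symm⟩
      · refine hδS c ?_ hpc
        rw [hSdef]
        left; left
        exact ⟨hpc, hrc⟩
  exact (key c hc).2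

end Fam

end Pool.Agent.FrZ
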