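import Pool.Agent.Lib.MP_305fdd_al.Fr.R.Defs

/-!
# MP_305fdd_al, Theorem R: lemmas on real trees and on realisations of systems
-/

set_option autoImplicit false
set_option linter.unusedSectionVars false
set_option linter.unusedVariables false
set_option linter.unnecessarySeqFocus false

namespace Pool.Agent.FrR

open Pool.Agent.FrZ

section tree

variable {Γ T : Type} [Group Γ] [MetricSpace T] [MulAction Γ T]

/-- displacement functions are convex in the weak sense -/
theorem conv (hT : IsRT T) {g : Γ} (hg : ∀ p q : T, dist (g • p) (g • q) = dist p q)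
    {p q r : T} {η : ℝ} (h : dist p r + dist r q = dist p q) (hp : dist p (g • p) ≤ η)
    (hq : dist q (g • q) ≤ η) : dist r (g • r) ≤ η := by
  have h1 := hT.hyp r (g • r) p q
  have h2 : dist (g • r) q ≤ dist r q + η := by
    have := dist_triangle (g • r) (g • q) q
    rw [hg, dist_comm (g • q) q] at this
    linarith
  have h3 : dist (g • r) p ≤ dist r p + η := by
    have := dist_triangle (g • r) (g • p) p
    rw [hg, dist_comm (g • p) p] at this
    linarith
  rw [dist_comm p r] at h
  rcases le_max_iff.1 h1 with h4 | h4 <;> linarith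

/-- LEMMA T: an isometry with displacement `≤ η` at both ends of an arc is a translation on the
middle part of the arc. -/
theorem transl (hT : IsRT T) {g : Γ} (hg : ∀ p q : T, dist (g • p) (g • q) = dist p q)
    {s : ℝ → T} {x y η : ℝ}
    (hs : ∀ a b, x ≤ a → a ≤ y → x ≤ b → b ≤ y → dist (s a) (s b) = |a - b|)
    (hx : dist (s x) (g • s x) ≤ η) (hy : dist (s y) (g • s y) ≤ η) :
    ∃ τ : ℝ, |τ| ≤ η ∧ ∀ z, x + η ≤ z → z ≤ y - η → g • s z = s (z + τ) := by
  have hη : 0 ≤ η := dist_nonneg.trans hx
  by_cases hxy : x + η ≤ y - η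
  swap
  · exact ⟨0, by rw [abs_zero]; exact hη, fun z h1 h2 => absurd (h1.trans h2) hxy⟩
  have hxy' : x ≤ y := by linarith
  have hD : dist (s x) (s y) = y - x := by
    rw [hs x y le_rfl hxy' hxy' le_rfl, abs_sub_comm, abs_of_nonneg (by linarith)]
  set α := dist (s x) (g • s y) with hα
  have hα1 : α ≤ (y - x) + η := by
    have := dist_triangle (s x) (s y) (g • s y)
    linarith
  have hα2 : (y - x) - η ≤ α := by
    have := dist_triangle (s x) (g • s y) (s y)
    rw [dist_comm (g • s y) (s y)] at this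
    linarith
  set β := dist (s y) (g • s x) with hβ
  have hβ1 : β ≤ (y - x) + η := by
    have := dist_triangle (s y) (s x) (g • s x)
    rw [dist_comm (s y) (s x)] at this
    linarith
  have hβ2 : (y - x) - η ≤ β := by
    have := dist_triangle (s y) (g • s x) (s x)
    rw [dist_comm (g • s x) (s x), dist_comm (s y) (s x)] at this
    linarith
  have hαβ : α + β ≤ 2 * (y - x) := by
    have h1 := hT.hyp (s x) (g • s y) (s y) (g • s x)
    rw [hg, hD, dist_comm (g • s y) (s y), dist_comm (s y) (s x), hD] at h1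
    rcases le_max_iff.1 h1 with h2 | h2 <;> linarith
  refine ⟨α - (y - x), abs_le.2 ⟨by linarith, by linarith⟩, fun z h1 h2 => ?_⟩
  have e1 : dist (s x) (s z) = z - x := by
    rw [hs x z le_rfl hxy' (by linarith) (by linarith), abs_sub_comm, abs_of_nonneg (by linarith)]
  have e2 : dist (s y) (s z) = y - z := by
    rw [hs y z hxy' le_rfl (by linarith) (by linarith), abs_of_nonneg (by linarith)]
  have hu : dist (s x) (g • s z) ≤ α - (y - z) := by
    have h3 := hT.hyp (s x) (g • s z) (g • s x) (g • s y)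
    rw [hg, hg, hg, hD, dist_comm (s z) (s y), e2, dist_comm (s z) (s x), e1] at h3
    rcases le_max_iff.1 h3 with h4 | h4 <;> linarith
  have hv : dist (s y) (g • s z) ≤ β - (z - x) := by
    have h3 := hT.hyp (s y) (g • s z) (g • s x) (g • s y)
    rw [hg, hg, hg, hD, dist_comm (s z) (s y), e2, dist_comm (s z) (s x), e1] at h3
    rcases le_max_iff.1 h3 with h4 | h4 <;> linarith
  set w := z + (α - (y - x)) with hw
  have f1 : dist (s x) (s w) = w - x := by
    rw [hs x w le_rfl hxy' (by linarith) (by linarith), abs_sub_comm, abs_of_nonneg (by linarith)]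
  have f2 : dist (s y) (s w) = y - w := by
    rw [hs y w hxy' le_rfl (by linarith) (by linarith), abs_of_nonneg (by linarith)]
  have h5 := hT.hyp (g • s z) (s w) (s x) (s y)
  rw [hD, dist_comm (g • s z) (s x), dist_comm (s w) (s y), f2, dist_comm (g • s z) (s y),
    dist_comm (s w) (s x), f1] at h5
  have h6 : dist (g • s z) (s w) ≤ 0 := by
    rcases le_max_iff.1 h5 with h | h <;> linarith
  exact dist_le_zero.1 h6

end tree

section rln

variable {J I Γ T : Type} [Group Γ] [MetricSpace T] [MulAction Γ T] {X : Sys J I ℝ}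
  {ρ : FreeGroup J →* Γ} {ι : I → ℝ → T}

theorem comp_unique (hX : X.Good) {i i' : I} {x : ℝ} (h1 : X.lo i ≤ x) (h2 : x ≤ X.hi i)
    (h3 : X.lo i' ≤ x) (h4 : x ≤ X.hi i') : i = i' := by
  by_contra h
  rcases hX.disj i i' h with h | h <;> linarith

/-- words act as their labels -/
theorem word_geo (hX : X.Good) (hR : Rln X ρ ι) (w : List (J × Bool)) :
    ∀ (i : I) (x : ℝ) (d : Bool), X.lo i ≤ x → x ≤ X.hi i → X.Valid (X.OK 0) w (x, d) →
      ∃ i', X.lo i' ≤ (X.run w (x, d)).1 ∧ (X.run w (x, d)).1 ≤ X.hi i' ∧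
        ι i' (X.run w (x, d)).1 = ρ (lab w) • ι i x := by
  induction w with
  | nil =>
    intro i x d h1 h2 _
    exact ⟨i, h1, h2, by simp [lab, Sys.run]⟩
  | cons σ w ih =>
    intro i x d h1 h2 hv
    have h3 := (X.OK_iff 0 σ x d).1 hv.1
    have h4 := hX.dom σ
    have h5 : i = X.dc σ := comp_unique hX h1 h2 (by linarith) (by linarith)
    have h6 : X.OK 0 (inv σ) (X.mv σ (x, d)) := (X.OK_mv 0 σ (x, d)).2 hv.1
    have h7 := (X.OK_iff 0 (inv σ) (X.mv σ (x, d)).1 (X.mv σ (x, d)).2).1 h6
    have h8 := hX.dom (inv σ)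
    obtain ⟨i', h9, h10, h11⟩ := ih (X.dc (inv σ)) (X.mv σ (x, d)).1 (X.mv σ (x, d)).2
      (by linarith) (by linarith) hv.2
    refine ⟨i', h9, h10, ?_⟩
    have h12 := hR.band σ x (by linarith) (by linarith)
    have h13 : (X.mv σ (x, d)).1 = X.mvx σ x := rfl
    show ι i' (X.run w (X.mv σ (x, d))).1 = _
    rw [h11, h13, h12, h5]
    simp [lab, mul_smul]

end rln

end Pool.Agent.FrR
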